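import Pool.Agent.helper20.SOL.Spec

/-!
# Row sol:ALP (MP_cad530_co): patterns of type A
-/

set_option autoImplicit false

namespace Pool.Agent.SOL

open Pool.Agent.helper54.SOG Finset

open scoped BigOperators

theorem ALP_ent (z : ℤ) (h : |z| ≤ 1) : z = 1 ∨ z = -1 ∨ z = 0 := by
  have := abs_le.1 h
  omega

theorem ALP_sums {n : ℕ} (x : Vec n) (h : ∀ i, x i = 1 ∨ x i = -1 ∨ x i = 0) :
    ∑ i, x i = ((univ.filter fun i => x i = 1).card : ℤ) - (univ.filter fun i => x i = -1).card ∧
    dp x x = ((univ.filter fun i => x i = 1).card : ℤ) + (univ.filter fun i => x i = -1).card := by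
  rw [card_filter, card_filter]
  push_cast
  constructor
  · rw [← sum_sub_distrib]
    refine sum_congr rfl fun i _ => ?_
    rcases h i with h1 | h1 | h1 <;> rw [h1] <;> norm_num
  · unfold dp
    rw [← sum_add_distrib]
    refine sum_congr rfl fun i _ => ?_
    rcases h i with h1 | h1 | h1 <;> rw [h1] <;> norm_num

theorem ALP_VA {n k : ℕ} (x : Vec n) : x ∈ VA n k ↔ (∀ i, x i = 1 ∨ x i = -1 ∨ x i = 0) ∧
    (univ.filter fun i => x i = 1).card = k ∧ (univ.filter fun i => x i = -1).card = k := by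
  constructor
  · rintro ⟨h1, h2, h3⟩
    have h4 : ∀ i, x i = 1 ∨ x i = -1 ∨ x i = 0 := fun i => ALP_ent _ (h1 i)
    obtain ⟨h5, h6⟩ := ALP_sums x h4
    rw [h5] at h2
    rw [h6] at h3
    exact ⟨h4, by omega, by omega⟩
  · rintro ⟨h4, h5, h6⟩
    obtain ⟨h7, h8⟩ := ALP_sums x h4
    refine ⟨fun i => ?_, ?_, ?_⟩
    · rcases h4 i with h | h | h <;> rw [h] <;> norm_num
    · rw [h7, h5, h6]; ring
    · rw [h8, h5, h6]; ring

theorem ALP_zero {n k : ℕ} (x : Vec n) (hx : x ∈ VA n k) :
    (univ.filter fun i => x i = 0).card + 2 * k = n := by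
  obtain ⟨h1, h2, h3⟩ := (ALP_VA x).1 hx
  have e : ∑ i : Fin n, ((if x i = 0 then 1 else 0) + (if x i = 1 then 1 else 0) +
      (if x i = -1 then 1 else 0) : ℕ) = n := by
    have : ∀ i : Fin n, ((if x i = 0 then 1 else 0) + (if x i = 1 then 1 else 0) +
      (if x i = -1 then 1 else 0) : ℕ) = 1 := by
      intro i
      rcases h1 i with h | h | h <;> rw [h] <;> norm_num
    rw [sum_congr rfl fun i _ => this i]
    simp
  rw [sum_add_distrib, sum_add_distrib, ← card_filter, ← card_filter, ← card_filter, h2, h3] at e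
  omega

theorem ALP_gen (hEXT : EXT_stmt) (n k q : ℕ) (x : Vec n) (hq : q ≤ k) (h3 : 3 * k ≤ n)
    (hx : x ∈ VA n k) (F : Finset (Fin n)) (g : Fin n → ℤ)
    (hF : ∀ a b : ℤ, (F.filter fun j => x j = a ∧ g j = b).card ≤ pA n k q a b) :
    ∃ y ∈ VA n k, x - y ∈ VA n k ∧ ∀ j ∈ F, y j = g j := by
  obtain ⟨x1, x2, x3⟩ := (ALP_VA x).1 hx
  have x4 := ALP_zero x hx
  -- one of the three sets
  have key : ∀ (A : ℤ) (K : Finset ℤ), (∀ b, b ∉ K → pA n k q A b = 0) →
      ∑ l ∈ K, pA n k q A l = (univ.filter fun i => x i = A).card →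
      ∃ h : Fin n → ℤ, (∀ j ∈ F, x j = A → h j = g j) ∧ (∀ j, x j = A → h j ∈ K) ∧
        ∀ l ∈ K, (univ.filter fun j => x j = A ∧ h j = l).card = pA n k q A l := by
    intro A K hK hs
    obtain ⟨h, h1, h2, h3⟩ := hEXT n (univ.filter fun i => x i = A) (F.filter fun i => x i = A) K
      (pA n k q A) g (filter_subset_filter _ (subset_univ _)) hs
      (by
        intro j hj
        rw [mem_filter] at hj
        by_contra hn
        have h4 := hF A (g j)
        rw [hK _ hn] at h4
        have h5 : j ∈ F.filter fun t => x t = A ∧ g t = g j := by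
          rw [mem_filter]
          exact ⟨hj.1, hj.2, rfl⟩
        have h6 := card_pos.2 ⟨j, h5⟩
        omega)
      (by
        intro l _
        rw [filter_filter]
        exact hF A l)
    refine ⟨h, fun j hj hx => h1 j (mem_filter.2 ⟨hj, hx⟩),
      fun j hx => h2 j (mem_filter.2 ⟨mem_univ _, hx⟩), fun l hl => ?_⟩
    have h4 := h3 l hl
    rw [filter_filter] at h4
    exact h4
  obtain ⟨f1, f1a, f1b, f1c⟩ := key 1 {1, 0} (by
    intro b hb
    unfold pA
    simp only [mem_insert, mem_singleton, not_or] at hb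
    rw [if_pos rfl, if_neg hb.1, if_neg hb.2]) (by
    rw [x2, sum_pair (by norm_num)]
    unfold pA
    norm_num
    omega)
  obtain ⟨f2, f2a, f2b, f2c⟩ := key (-1) {-1, 0} (by
    intro b hb
    unfold pA
    simp only [mem_insert, mem_singleton, not_or] at hb
    rw [if_neg (by norm_num), if_pos rfl, if_neg hb.1, if_neg hb.2]) (by
    rw [x3, sum_pair (by norm_num)]
    unfold pA
    norm_num
    omega)
  obtain ⟨f0, f0a, f0b, f0c⟩ := key 0 {1, -1, 0} (by
    intro b hb
    unfold pA
    simp only [mem_insert, mem_singleton, not_or] at hb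
    rw [if_neg (by norm_num), if_neg (by norm_num), if_pos rfl, if_neg hb.1, if_neg hb.2.1,
      if_neg hb.2.2]) (by
    rw [sum_insert (by simp), sum_pair (by norm_num)]
    unfold pA
    norm_num
    omega)
  obtain ⟨y, hy1, hy2, hy0⟩ : ∃ y : Vec n, (∀ j, x j = 1 → y j = f1 j) ∧
      (∀ j, x j = -1 → y j = f2 j) ∧ (∀ j, x j = 0 → y j = f0 j) := by
    refine ⟨fun j => if x j = 1 then f1 j else if x j = -1 then f2 j else f0 j, ?_, ?_, ?_⟩
    · intro j hj
      show (if x j = 1 then f1 j else if x j = -1 then f2 j else f0 j) = f1 j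
      rw [if_pos hj]
    · intro j hj
      show (if x j = 1 then f1 j else if x j = -1 then f2 j else f0 j) = f2 j
      rw [if_neg (by rw [hj]; norm_num), if_pos hj]
    · intro j hj
      show (if x j = 1 then f1 j else if x j = -1 then f2 j else f0 j) = f0 j
      rw [if_neg (by rw [hj]; norm_num), if_neg (by rw [hj]; norm_num)]
  -- the cases
  have hcase : ∀ j, (x j = 1 ∧ (y j = 1 ∨ y j = 0)) ∨ (x j = -1 ∧ (y j = -1 ∨ y j = 0)) ∨
      (x j = 0 ∧ (y j = 1 ∨ y j = -1 ∨ y j = 0)) := by
    intro j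
    rcases x1 j with h | h | h
    · left
      have := f1b j h
      rw [mem_insert, mem_singleton] at this
      exact ⟨h, by rw [hy1 j h]; exact this⟩
    · right; left
      have := f2b j h
      rw [mem_insert, mem_singleton] at this
      exact ⟨h, by rw [hy2 j h]; exact this⟩
    · right; right
      have := f0b j h
      rw [mem_insert, mem_insert, mem_singleton] at this
      exact ⟨h, by rw [hy0 j h]; exact this⟩
  -- the counts
  have cnt1 : ∀ l ∈ ({1, 0} : Finset ℤ), ∑ j, (if x j = 1 ∧ y j = l then 1 else 0 : ℕ) =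
      pA n k q 1 l := by
    intro l hl
    rw [← f1c l hl, card_filter]
    refine sum_congr rfl fun j _ => ?_
    by_cases hj : x j = 1
    · rw [hy1 j hj]
    · rw [if_neg fun h => hj h.1, if_neg fun h => hj h.1]
  have cnt2 : ∀ l ∈ ({-1, 0} : Finset ℤ), ∑ j, (if x j = -1 ∧ y j = l then 1 else 0 : ℕ) =
      pA n k q (-1) l := by
    intro l hl
    rw [← f2c l hl, card_filter]
    refine sum_congr rfl fun j _ => ?_
    by_cases hj : x j = -1
    · rw [hy2 j hj]
    · rw [if_neg fun h => hj h.1, if_neg fun h => hj h.1]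
  have cnt0 : ∀ l ∈ ({1, -1, 0} : Finset ℤ), ∑ j, (if x j = 0 ∧ y j = l then 1 else 0 : ℕ) =
      pA n k q 0 l := by
    intro l hl
    rw [← f0c l hl, card_filter]
    refine sum_congr rfl fun j _ => ?_
    by_cases hj : x j = 0
    · rw [hy0 j hj]
    · rw [if_neg fun h => hj h.1, if_neg fun h => hj h.1]
  have c11 := cnt1 1 (by simp)
  have c10 := cnt1 0 (by simp)
  have cmm := cnt2 (-1) (by simp)
  have cm0 := cnt2 0 (by simp)
  have c01 := cnt0 1 (by simp)
  have c0m := cnt0 (-1) (by simp)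
  have p11 : pA n k q 1 1 = q := by unfold pA; norm_num
  have p10 : pA n k q 1 0 = k - q := by unfold pA; norm_num
  have pmm : pA n k q (-1) (-1) = k - q := by unfold pA; norm_num
  have pm0 : pA n k q (-1) 0 = q := by unfold pA; norm_num
  have p01 : pA n k q 0 1 = k - q := by unfold pA; norm_num
  have p0m : pA n k q 0 (-1) = q := by unfold pA; norm_num
  rw [p11] at c11
  rw [p10] at c10
  rw [pmm] at cmm
  rw [pm0] at cm0
  rw [p01] at c01
  rw [p0m] at c0m
  refine ⟨y, (ALP_VA y).2 ⟨fun j => ?_, ?_, ?_⟩, (ALP_VA (x - y)).2 ⟨fun j => ?_, ?_, ?_⟩, ?_⟩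
  · rcases hcase j with ⟨h, h'⟩ | ⟨h, h'⟩ | ⟨h, h'⟩
    · tauto
    · tauto
    · tauto
  · rw [card_filter]
    have e : ∀ j, (if y j = 1 then 1 else 0 : ℕ) = (if x j = 1 ∧ y j = 1 then 1 else 0) +
        (if x j = 0 ∧ y j = 1 then 1 else 0) := by
      intro j
      rcases hcase j with ⟨h, h' | h'⟩ | ⟨h, h' | h'⟩ | ⟨h, h' | h' | h'⟩ <;> rw [h, h'] <;> norm_num
    rw [sum_congr rfl fun j _ => e j, sum_add_distrib, c11, c01]
    omega
  · rw [card_filter]
    have e : ∀ j, (if y j = -1 then 1 else 0 : ℕ) = (if x j = -1 ∧ y j = -1 then 1 else 0) +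
        (if x j = 0 ∧ y j = -1 then 1 else 0) := by
      intro j
      rcases hcase j with ⟨h, h' | h'⟩ | ⟨h, h' | h'⟩ | ⟨h, h' | h' | h'⟩ <;> rw [h, h'] <;> norm_num
    rw [sum_congr rfl fun j _ => e j, sum_add_distrib, cmm, c0m]
    omega
  · rw [Pi.sub_apply]
    rcases hcase j with ⟨h, h' | h'⟩ | ⟨h, h' | h'⟩ | ⟨h, h' | h' | h'⟩ <;> rw [h, h'] <;> norm_num
  · rw [card_filter]
    have e : ∀ j, (if (x - y) j = 1 then 1 else 0 : ℕ) = (if x j = 1 ∧ y j = 0 then 1 else 0) +
        (if x j = 0 ∧ y j = -1 then 1 else 0) := by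
      intro j
      rw [Pi.sub_apply]
      rcases hcase j with ⟨h, h' | h'⟩ | ⟨h, h' | h'⟩ | ⟨h, h' | h' | h'⟩ <;> rw [h, h'] <;> norm_num
    rw [sum_congr rfl fun j _ => e j, sum_add_distrib, c10, c0m]
    omega
  · rw [card_filter]
    have e : ∀ j, (if (x - y) j = -1 then 1 else 0 : ℕ) = (if x j = -1 ∧ y j = 0 then 1 else 0) +
        (if x j = 0 ∧ y j = 1 then 1 else 0) := by
      intro j
      rw [Pi.sub_apply]
      rcases hcase j with ⟨h, h' | h'⟩ | ⟨h, h' | h'⟩ | ⟨h, h' | h' | h'⟩ <;> rw [h, h'] <;> norm_num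
    rw [sum_congr rfl fun j _ => e j, sum_add_distrib, cm0, c01]
    omega
  · intro j hj
    rcases x1 j with h | h | h
    · rw [hy1 j h, f1a j hj h]
    · rw [hy2 j h, f2a j hj h]
    · rw [hy0 j h, f0a j hj h]

theorem ALP (hEXT : EXT_stmt) : ALP_stmt := by
  refine ⟨?_, ?_⟩
  · intro n k q x hq h3 hx i j l m vi vj vl vm hij hil him hjl hjm hlm hp
    set g : Fin n → ℤ := fun t => if t = i then vi else if t = j then vj else if t = l then vl else vm
      with hg
    have gi : g i = vi := if_pos rfl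
    have gj : g j = vj := by
      show (if j = i then vi else if j = j then vj else if j = l then vl else vm) = vj
      rw [if_neg hij.symm, if_pos rfl]
    have gl : g l = vl := by
      show (if l = i then vi else if l = j then vj else if l = l then vl else vm) = vl
      rw [if_neg hil.symm, if_neg hjl.symm, if_pos rfl]
    have gm : g m = vm := by
      show (if m = i then vi else if m = j then vj else if m = l then vl else vm) = vm
      rw [if_neg him.symm, if_neg hjm.symm, if_neg hlm.symm]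
    obtain ⟨y, hy, hxy, hF⟩ := ALP_gen hEXT n k q x hq h3 hx {i, j, l, m} g (by
      intro a b
      rw [card_filter, sum_insert (by simp [hij, hil, him]), sum_insert (by simp [hjl, hjm]),
        sum_insert (by simp [hlm]), sum_singleton, gi, gj, gl, gm]
      have := hp a b
      omega)
    refine ⟨y, hy, hxy, ?_, ?_, ?_, ?_⟩
    · rw [hF i (by simp), gi]
    · rw [hF j (by simp), gj]
    · rw [hF l (by simp), gl]
    · rw [hF m (by simp), gm]
  · intro n k q x hq h3 hx i j vi vj hij hp
    set g : Fin n → ℤ := fun t => if t = i then vi else vj with hg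
    have gi : g i = vi := if_pos rfl
    have gj : g j = vj := if_neg hij.symm
    obtain ⟨y, hy, hxy, hF⟩ := ALP_gen hEXT n k q x hq h3 hx {i, j} g (by
      intro a b
      rw [card_filter, sum_pair hij, gi, gj]
      exact hp a b)
    refine ⟨y, hy, hxy, ?_, ?_⟩
    · rw [hF i (by simp), gi]
    · rw [hF j (by simp), gj]

end Pool.Agent.SOL
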