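import Pool.Agent.helper20.SOL.SpecE

set_option autoImplicit false

namespace Pool.Agent.SOL

open Pool.Agent.helper54.SOG Finset

open scoped BigOperators

/-- the decidable conditions on a representative `y` with the list `L` and the numbers `c` -/
def ME7c_ok (y : Vec 8) (L : List (Vec 8)) (c : Fin 9 → ℕ) : Prop :=
  (∀ i j, y i % 2 = y j % 2) ∧ (∑ i, y i) % 4 = 0 ∧ (∀ i, |y i| ≤ 8) ∧
  (∀ a ∈ L, (∀ i j, a i % 2 = a j % 2) ∧ (∑ i, a i) % 4 = 0 ∧ a 6 + a 7 = 0 ∧ dp a a = 8) ∧
  L.Pairwise (fun a b => dp a b = 0) ∧ L.sum = y ∧ L.length = 5 ∧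
  (∀ v : Fin 9, cN 6 y (v.val : ℤ) = c v) ∧ (0 < c 0 ∨ y 0 % 2 = 1)

instance (y : Vec 8) (L : List (Vec 8)) (c : Fin 9 → ℕ) : Decidable (ME7c_ok y L c) := by
  unfold ME7c_ok
  infer_instance

theorem ME7c_key (hREP : REP_stmt) (hCTE : CTE_stmt) (hPRD : PRD_stmt) (hCLQ : CLQ_stmt)
    (x : Vec 8) (hx : x ∈ EL) (hx8 : ∀ i, |x i| ≤ 8) (y : Vec 8) (L : List (Vec 8)) (c : Fin 9 → ℕ)
    (hok : ME7c_ok y L c) (h6 : x 6 = y 6) (h7 : x 7 = y 7)
    (hc : ∀ v : Fin 9, cN 6 x (v.val : ℤ) = c v) : x ∈ VE R7 5 := by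
  obtain ⟨y1, y2, y8, yL, yp, ys, yl, yc, yz⟩ := hok
  have hyE : y ∈ EL := ⟨y1, y2⟩
  have hyV : y ∈ VE R7 5 := by
    have h1 := hCLQ R7 L (fun a ha => by
      obtain ⟨a1, a2, a3, a4⟩ := yL a ha
      exact ⟨⟨⟨a1, a2⟩, a3, by rw [a4]; norm_num⟩, a4⟩) yp
    rwa [ys, yl] at h1
  have hcc : ∀ v : ℤ, cN 6 x v = cN 6 y v := by
    intro v
    by_cases hv : v < 0 ∨ 8 < v
    · rw [(hCTE 6 x (by norm_num) hx8).2.2.1 v hv, (hCTE 6 y (by norm_num) y8).2.2.1 v hv]
    · push Not at hv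
      obtain ⟨k, rfl⟩ := Int.eq_ofNat_of_zero_le hv.1
      have hk : k < 9 := by omega
      have h1 := hc ⟨k, hk⟩
      have h2 := yc ⟨k, hk⟩
      exact h1.trans h2.symm
  have hge : ∀ i : Fin 8, 6 ≤ i.val → x i = y i := by
    intro i hi
    have : i = 6 ∨ i = 7 := by
      fin_cases i <;> simp_all
    rcases this with rfl | rfl
    · exact h6
    · exact h7
  refine (hREP 5 x y).2.1 hge hcc ?_ hyV
  rcases yz with hz | hz
  · have h0 : 0 < cN 6 x 0 := by
      have := hc 0
      rw [← this] at hz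
      exact hz
    obtain ⟨p1, p2⟩ := hPRD.2.1 6 x y hcc h0
    rw [p1, p2]
  · apply hPRD.1 6 x y (Or.inr (Or.inl rfl)) hx hyE _ hge hcc
    rw [hx.1 0 6, h6, y1 6 0]
    exact hz

theorem ME7c_even (x : Vec 8) (h : ∀ i, x i % 2 = 0) (v : ℤ) (hv : v % 2 = 1) : cN 6 x v = 0 := by
  unfold cN
  rw [Finset.card_eq_zero, Finset.filter_eq_empty_iff]
  rintro i _ ⟨_, h2⟩
  have h3 := h i
  rcases abs_choice (x i) with h4 | h4 <;> rw [h4] at h2 <;> omega

theorem ME7c_odd (x : Vec 8) (h : ∀ i, x i % 2 = 1) (v : ℤ) (hv : v % 2 = 0) : cN 6 x v = 0 := by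
  unfold cN
  rw [Finset.card_eq_zero, Finset.filter_eq_empty_iff]
  rintro i _ ⟨_, h2⟩
  have h3 := h i
  rcases abs_choice (x i) with h4 | h4 <;> rw [h4] at h2 <;> omega

theorem ME7c_n0 (a b c d e : ℕ) (h1 : a + b + c + d + e = 6)
    (h2 : 4 * b + 16 * c + 36 * d + 64 * e = 40) :
    (a = 2 ∧ b = 2 ∧ c = 2 ∧ d = 0 ∧ e = 0) ∨ (a = 4 ∧ b = 1 ∧ c = 0 ∧ d = 1 ∧ e = 0) := by
  have h3 : c ≤ 2 := by omega
  have h4 : d ≤ 1 := by omega
  interval_cases c <;> interval_cases d <;> omega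

theorem ME7c_n2 (a b c d e : ℕ) (h1 : a + b + c + d + e = 6)
    (h2 : 4 * b + 16 * c + 36 * d + 64 * e = 32) :
    (a = 1 ∧ b = 4 ∧ c = 1 ∧ d = 0 ∧ e = 0) ∨ (a = 4 ∧ b = 0 ∧ c = 2 ∧ d = 0 ∧ e = 0) := by
  have h3 : c ≤ 2 := by omega
  have h4 : d = 0 := by omega
  have h5 : e = 0 := by omega
  subst h4 h5
  interval_cases c <;> omega

theorem ME7c_n4 (a b c d e : ℕ) (h1 : a + b + c + d + e = 6)
    (h2 : 4 * b + 16 * c + 36 * d + 64 * e = 8) :
    (a = 4 ∧ b = 2 ∧ c = 0 ∧ d = 0 ∧ e = 0) := by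
  have h3 : c = 0 := by omega
  have h4 : d = 0 := by omega
  have h5 : e = 0 := by omega
  subst h3 h4 h5
  omega

theorem ME7c_n1 (a b c d : ℕ) (h1 : a + b + c + d = 6)
    (h2 : a + 9 * b + 25 * c + 49 * d = 38) :
    (a = 2 ∧ b = 4 ∧ c = 0 ∧ d = 0) ∨ (a = 4 ∧ b = 1 ∧ c = 1 ∧ d = 0) := by
  have h3 : c ≤ 1 := by omega
  interval_cases c <;> omega

theorem ME7c_n3 (a b c d : ℕ) (h1 : a + b + c + d = 6)
    (h2 : a + 9 * b + 25 * c + 49 * d = 22) :
    (a = 4 ∧ b = 2 ∧ c = 0 ∧ d = 0) := by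
  have h3 : c ≤ 0 := by omega
  interval_cases c
  omega

theorem ME7c_pos (hREP : REP_stmt) (hCTE : CTE_stmt) (hPRD : PRD_stmt) (hCLQ : CLQ_stmt)
    (x : Vec 8) (hx : x ∈ XE7 5) (hx6 : 0 ≤ x 6) : x ∈ VE R7 5 := by
  obtain ⟨hE, h67, hn⟩ := hx
  have hn40 : dp x x = 40 := by rw [hn]; norm_num
  have hx8 : ∀ i, |x i| ≤ 8 := by
    intro i
    have h1 : x i * x i ≤ dp x x := by
      unfold dp
      exact Finset.single_le_sum (f := fun i => x i * x i) (fun j _ => mul_self_nonneg (x j)) (Finset.mem_univ i)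
    rw [hn40] at h1
    rw [abs_le]
    constructor <;> nlinarith
  obtain ⟨t1, t2, _, t4⟩ := hCTE 6 x (by norm_num) hx8
  have hf : (univ.filter (fun i : Fin 8 => ¬ i.val < 6)) = {6, 7} := by decide
  rw [hf, Finset.sum_pair (by decide), t2, hn40] at t4
  have hx7 : x 7 = -x 6 := by linarith
  rw [hx7] at t4
  simp only [Finset.sum_range_succ, Finset.sum_range_zero] at t1 t4
  simp only [Nat.cast_zero, Nat.cast_one, Nat.cast_ofNat] at t1 t4
  have ha4 : x 6 ≤ 4 := by nlinarith
  have hpar : (∀ i, x i % 2 = 0) ∨ (∀ i, x i % 2 = 1) := by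
    rcases Int.emod_two_eq_zero_or_one (x 6) with h | h
    · left; intro i; rw [hE.1 i 6]; exact h
    · right; intro i; rw [hE.1 i 6]; exact h
  have key := ME7c_key hREP hCTE hPRD hCLQ x hE hx8
  rcases hpar with hp | hp
  · have z1 := ME7c_even x hp 1 (by norm_num)
    have z3 := ME7c_even x hp 3 (by norm_num)
    have z5 := ME7c_even x hp 5 (by norm_num)
    have z7 := ME7c_even x hp 7 (by norm_num)
    rw [z1, z3, z5, z7] at t1 t4
    have hp6 := hp 6
    have h024 : x 6 = 0 ∨ x 6 = 2 ∨ x 6 = 4 := by omega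
    rcases h024 with h | h | h
    · rw [h] at t4
      rcases ME7c_n0 (cN 6 x 0) (cN 6 x 2) (cN 6 x 4) (cN 6 x 6) (cN 6 x 8) (by omega) (by omega) with
        ⟨c0, c2, c4, c6, c8⟩ | ⟨c0, c2, c4, c6, c8⟩
      · apply key ![4, 4, 2, 2, 0, 0, 0, 0]
          [![2, 0, 0, 0, 2, 0, 0, 0],
            ![2, 0, 0, 0, -2, 0, 0, 0],
            ![0, 2, 0, 0, 0, 2, 0, 0],
            ![0, 2, 0, 0, 0, -2, 0, 0],
            ![0, 0, 2, 2, 0, 0, 0, 0]]
          ![2, 0, 2, 0, 2, 0, 0, 0, 0] (by decide +kernel)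
        · rw [h]; rfl
        · rw [hx7, h]; rfl
        · intro v
          fin_cases v
          · exact c0
          · exact z1
          · exact c2
          · exact z3
          · exact c4
          · exact z5
          · exact c6
          · exact z7
          · exact c8
      · apply key ![6, 2, 0, 0, 0, 0, 0, 0]
          [![2, -2, 0, 0, 0, 0, 0, 0],
            ![1, 1, 1, 1, 1, -1, 1, -1],
            ![1, 1, 1, 1, -1, 1, -1, 1],
            ![1, 1, -1, -1, 1, -1, -1, 1],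
            ![1, 1, -1, -1, -1, 1, 1, -1]]
          ![4, 0, 1, 0, 0, 0, 1, 0, 0] (by decide +kernel)
        · rw [h]; rfl
        · rw [hx7, h]; rfl
        · intro v
          fin_cases v
          · exact c0
          · exact z1
          · exact c2
          · exact z3
          · exact c4
          · exact z5
          · exact c6
          · exact z7
          · exact c8
    · rw [h] at t4
      rcases ME7c_n2 (cN 6 x 0) (cN 6 x 2) (cN 6 x 4) (cN 6 x 6) (cN 6 x 8) (by omega) (by omega) with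
        ⟨c0, c2, c4, c6, c8⟩ | ⟨c0, c2, c4, c6, c8⟩
      · apply key ![4, 2, 2, 2, 2, 0, 2, -2]
          [![2, 0, 0, 0, 0, 2, 0, 0],
            ![2, 0, 0, 0, 0, -2, 0, 0],
            ![0, 2, 2, 0, 0, 0, 0, 0],
            ![0, 0, 0, 2, 2, 0, 0, 0],
            ![0, 0, 0, 0, 0, 0, 2, -2]]
          ![1, 0, 4, 0, 1, 0, 0, 0, 0] (by decide +kernel)
        · rw [h]; rfl
        · rw [hx7, h]; rfl
        · intro v
          fin_cases v
          · exact c0
          · exact z1
          · exact c2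
          · exact z3
          · exact c4
          · exact z5
          · exact c6
          · exact z7
          · exact c8
      · apply key ![4, 4, 0, 0, 0, 0, 2, -2]
          [![2, 0, 2, 0, 0, 0, 0, 0],
            ![2, 0, -2, 0, 0, 0, 0, 0],
            ![0, 2, 0, 2, 0, 0, 0, 0],
            ![0, 2, 0, -2, 0, 0, 0, 0],
            ![0, 0, 0, 0, 0, 0, 2, -2]]
          ![4, 0, 0, 0, 2, 0, 0, 0, 0] (by decide +kernel)
        · rw [h]; rfl
        · rw [hx7, h]; rfl
        · intro v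
          fin_cases v
          · exact c0
          · exact z1
          · exact c2
          · exact z3
          · exact c4
          · exact z5
          · exact c6
          · exact z7
          · exact c8
    · rw [h] at t4
      obtain ⟨c0, c2, c4, c6, c8⟩ := ME7c_n4 (cN 6 x 0) (cN 6 x 2) (cN 6 x 4) (cN 6 x 6) (cN 6 x 8)
        (by omega) (by omega)
      · apply key ![2, 2, 0, 0, 0, 0, 4, -4]
          [![2, 2, 0, 0, 0, 0, 0, 0],
            ![1, -1, 1, 1, 1, 1, 1, -1],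
            ![1, -1, -1, -1, -1, -1, 1, -1],
            ![-1, 1, 1, 1, -1, -1, 1, -1],
            ![-1, 1, -1, -1, 1, 1, 1, -1]]
          ![4, 0, 2, 0, 0, 0, 0, 0, 0] (by decide +kernel)
        · rw [h]; rfl
        · rw [hx7, h]; rfl
        · intro v
          fin_cases v
          · exact c0
          · exact z1
          · exact c2
          · exact z3
          · exact c4
          · exact z5
          · exact c6
          · exact z7
          · exact c8
  · have z0 := ME7c_odd x hp 0 (by norm_num)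
    have z2 := ME7c_odd x hp 2 (by norm_num)
    have z4 := ME7c_odd x hp 4 (by norm_num)
    have z6 := ME7c_odd x hp 6 (by norm_num)
    have z8 := ME7c_odd x hp 8 (by norm_num)
    rw [z0, z2, z4, z6, z8] at t1 t4
    have hp6 := hp 6
    have h13 : x 6 = 1 ∨ x 6 = 3 := by omega
    rcases h13 with h | h
    · rw [h] at t4
      rcases ME7c_n1 (cN 6 x 1) (cN 6 x 3) (cN 6 x 5) (cN 6 x 7) (by omega) (by omega) with
        ⟨c1, c3, c5, c7⟩ | ⟨c1, c3, c5, c7⟩
      · apply key ![3, 3, 3, 3, 1, -1, 1, -1]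
          [![2, 0, 0, 0, 2, 0, 0, 0],
            ![0, 2, 0, 0, 0, -2, 0, 0],
            ![1, 1, 1, 1, -1, 1, -1, 1],
            ![1, -1, 1, 1, -1, -1, 1, -1],
            ![-1, 1, 1, 1, 1, 1, 1, -1]]
          ![0, 2, 0, 4, 0, 0, 0, 0, 0] (by decide +kernel)
        · rw [h]; rfl
        · rw [hx7, h]; rfl
        · intro v
          fin_cases v
          · exact z0
          · exact c1
          · exact z2
          · exact c3
          · exact z4
          · exact c5
          · exact z6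
          · exact c7
          · exact z8
      · apply key ![5, 3, 1, 1, 1, 1, 1, -1]
          [![2, 0, -2, 0, 0, 0, 0, 0],
            ![0, 2, 0, 2, 0, 0, 0, 0],
            ![1, 1, 1, -1, 1, 1, -1, 1],
            ![1, 1, 1, -1, -1, -1, 1, -1],
            ![1, -1, 1, 1, 1, 1, 1, -1]]
          ![0, 4, 0, 1, 0, 1, 0, 0, 0] (by decide +kernel)
        · rw [h]; rfl
        · rw [hx7, h]; rfl
        · intro v
          fin_cases v
          · exact z0
          · exact c1
          · exact z2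
          · exact c3
          · exact z4
          · exact c5
          · exact z6
          · exact c7
          · exact z8
    · rw [h] at t4
      obtain ⟨c1, c3, c5, c7⟩ := ME7c_n3 (cN 6 x 1) (cN 6 x 3) (cN 6 x 5) (cN 6 x 7)
        (by omega) (by omega)
      · apply key ![3, 3, 1, 1, 1, -1, 3, -3]
          [![2, 0, 2, 0, 0, 0, 0, 0],
            ![0, 2, 0, 2, 0, 0, 0, 0],
            ![1, 1, -1, -1, -1, 1, 1, -1],
            ![1, -1, -1, 1, 1, -1, 1, -1],
            ![-1, 1, 1, -1, 1, -1, 1, -1]]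
          ![0, 4, 0, 2, 0, 0, 0, 0, 0] (by decide +kernel)
        · rw [h]; rfl
        · rw [hx7, h]; rfl
        · intro v
          fin_cases v
          · exact z0
          · exact c1
          · exact z2
          · exact c3
          · exact z4
          · exact c5
          · exact z6
          · exact c7
          · exact z8

theorem ME7c (hREP : REP_stmt) (hCTE : CTE_stmt) (hPRD : PRD_stmt) (hCLQ : CLQ_stmt)
    (hELB : ELB_stmt) : ME7c_stmt := by
  intro x hx
  rcases le_or_gt 0 (x 6) with h | h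
  · exact ME7c_pos hREP hCTE hPRD hCLQ x hx h
  · have hneg : -x ∈ XE7 5 := by
      obtain ⟨hE, h67, hn⟩ := hx
      refine ⟨(hELB.1 x x hE hE).2.2, ?_, ?_⟩
      · rw [Pi.neg_apply, Pi.neg_apply]
        linarith
      · rw [dp_neg_neg]
        exact hn
    have h1 := ME7c_pos hREP hCTE hPRD hCLQ (-x) hneg (by rw [Pi.neg_apply]; linarith)
    have h2 := (hELB.2.2.2.1 5 (-x)).2.1 h1
    rwa [neg_neg] at h2

end Pool.Agent.SOL
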