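import Pool.Agent.helper20.SOL.SpecE

set_option autoImplicit false

namespace Pool.Agent.SOL

open Pool.Agent.helper54.SOG Finset

open scoped BigOperators

/-- the decidable conditions on a representative `y` with the list `L` and the numbers `c` -/
def ME8b_ok (k : ℕ) (y : Vec 8) (L : List (Vec 8)) (c : Fin 9 → ℕ) : Prop :=
  (∀ i j, y i % 2 = y j % 2) ∧ (∑ i, y i) % 4 = 0 ∧ (∀ i, |y i| ≤ 8) ∧
  (∀ a ∈ L, (∀ i j, a i % 2 = a j % 2) ∧ (∑ i, a i) % 4 = 0 ∧ dp a a = 8) ∧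
  L.Pairwise (fun a b => dp a b = 0) ∧ L.sum = y ∧ L.length = k ∧
  (∀ v : Fin 9, cN 8 y (v.val : ℤ) = c v)

instance (k : ℕ) (y : Vec 8) (L : List (Vec 8)) (c : Fin 9 → ℕ) : Decidable (ME8b_ok k y L c) := by
  unfold ME8b_ok
  infer_instance

theorem ME8b_key (hREP : REP_stmt) (hCTE : CTE_stmt) (hPRD : PRD_stmt) (hCLQ : CLQ_stmt)
    (k : ℕ) (x : Vec 8) (hx : x ∈ EL) (hpar : x 0 % 2 = 0 ∨ x 0 % 2 = 1) (hx8 : ∀ i, |x i| ≤ 8)
    (y : Vec 8) (L : List (Vec 8)) (c : Fin 9 → ℕ)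
    (hok : ME8b_ok k y L c) (yz : 0 < c 0 ∨ (y 0 % 2 = 1 ∧ 0 < c 1) ∨ pN 8 x = pN 8 y)
    (hc : ∀ v : Fin 9, cN 8 x (v.val : ℤ) = c v) : x ∈ VE R8 k := by
  obtain ⟨y1, y2, y8, yL, yp, ys, yl, yc⟩ := hok
  have hyE : y ∈ EL := ⟨y1, y2⟩
  have hyV : y ∈ VE R8 k := by
    have h1 := hCLQ R8 L (fun a ha => by
      obtain ⟨a1, a2, a4⟩ := yL a ha
      exact ⟨⟨⟨a1, a2⟩, by rw [a4]; norm_num⟩, a4⟩) yp
    rwa [ys, yl] at h1
  have hcc : ∀ v : ℤ, cN 8 x v = cN 8 y v := by
    intro v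
    by_cases hv : v < 0 ∨ 8 < v
    · rw [(hCTE 8 x (by norm_num) hx8).2.2.1 v hv, (hCTE 8 y (by norm_num) y8).2.2.1 v hv]
    · push Not at hv
      obtain ⟨k, rfl⟩ := Int.eq_ofNat_of_zero_le hv.1
      have hk : k < 9 := by omega
      have h1 := hc ⟨k, hk⟩
      have h2 := yc ⟨k, hk⟩
      exact h1.trans h2.symm
  refine (hREP k x y).1 hcc ?_ hyV
  rcases yz with hz | ⟨_, hz⟩ | hz
  · have h0 : 0 < cN 8 x 0 := by
      have := hc 0
      rw [← this] at hz
      exact hz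
    obtain ⟨p1, p2⟩ := hPRD.2.1 8 x y hcc h0
    rw [p1, p2]
  · apply hPRD.1 8 x y (Or.inl rfl) hx hyE _ (fun i hi => absurd i.2 (by omega)) hcc
    have h1 : 0 < cN 8 x 1 := by
      have := hc 1
      rw [← this] at hz
      exact hz
    unfold cN at h1
    obtain ⟨i, hi⟩ := Finset.card_pos.1 h1
    have hi2 := (Finset.mem_filter.1 hi).2.2
    rw [hx.1 0 i]
    rcases abs_choice (x i) with h4 | h4 <;> rw [h4] at hi2 <;> omega
  · exact hz

theorem ME8b_even (x : Vec 8) (h : ∀ i, x i % 2 = 0) (v : ℤ) (hv : v % 2 = 1) : cN 8 x v = 0 := by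
  unfold cN
  rw [Finset.card_eq_zero, Finset.filter_eq_empty_iff]
  rintro i _ ⟨_, h2⟩
  have h3 := h i
  rcases abs_choice (x i) with h4 | h4 <;> rw [h4] at h2 <;> omega

theorem ME8b_odd (x : Vec 8) (h : ∀ i, x i % 2 = 1) (v : ℤ) (hv : v % 2 = 0) : cN 8 x v = 0 := by
  unfold cN
  rw [Finset.card_eq_zero, Finset.filter_eq_empty_iff]
  rintro i _ ⟨_, h2⟩
  have h3 := h i
  rcases abs_choice (x i) with h4 | h4 <;> rw [h4] at h2 <;> omega

theorem ME8b_e4 (a b c d e : ℕ) (h1 : a + b + c + d + e = 8)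
    (h2 : 4 * b + 16 * c + 36 * d + 64 * e = 32) :
    (a = 0 ∧ b = 8 ∧ c = 0 ∧ d = 0 ∧ e = 0) ∨ (a = 3 ∧ b = 4 ∧ c = 1 ∧ d = 0 ∧ e = 0) ∨
      (a = 6 ∧ b = 0 ∧ c = 2 ∧ d = 0 ∧ e = 0) := by
  have h3 : c ≤ 2 := by omega
  have h4 : d = 0 := by omega
  have h5 : e = 0 := by omega
  subst h4 h5
  interval_cases c <;> omega

theorem ME8b_o4 (a b c d : ℕ) (h1 : a + b + c + d = 8)
    (h2 : a + 9 * b + 25 * c + 49 * d = 32) :
    (a = 5 ∧ b = 3 ∧ c = 0 ∧ d = 0) ∨ (a = 7 ∧ b = 0 ∧ c = 1 ∧ d = 0) := by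
  have h3 : c ≤ 1 := by omega
  have h4 : d = 0 := by omega
  subst h4
  interval_cases c <;> omega

theorem ME8b_e5 (a b c d e : ℕ) (h1 : a + b + c + d + e = 8)
    (h2 : 4 * b + 16 * c + 36 * d + 64 * e = 40) :
    (a = 1 ∧ b = 6 ∧ c = 1 ∧ d = 0 ∧ e = 0) ∨ (a = 4 ∧ b = 2 ∧ c = 2 ∧ d = 0 ∧ e = 0) ∨
      (a = 6 ∧ b = 1 ∧ c = 0 ∧ d = 1 ∧ e = 0) := by
  have h3 : c ≤ 2 := by omega
  have h4 : d ≤ 1 := by omega
  have h5 : e = 0 := by omega
  subst h5
  interval_cases c <;> interval_cases d <;> omega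

theorem ME8b_o5 (a b c d : ℕ) (h1 : a + b + c + d = 8)
    (h2 : a + 9 * b + 25 * c + 49 * d = 40) :
    (a = 4 ∧ b = 4 ∧ c = 0 ∧ d = 0) ∨ (a = 6 ∧ b = 1 ∧ c = 1 ∧ d = 0) := by
  have h3 : c ≤ 1 := by omega
  have h4 : d = 0 := by omega
  subst h4
  interval_cases c <;> omega

theorem ME8b_k4 (hREP : REP_stmt) (hCTE : CTE_stmt) (hPRD : PRD_stmt) (hCLQ : CLQ_stmt)
    (x : Vec 8) (hx : x ∈ XE8 4) : x ∈ VE R8 4 := by
  obtain ⟨hE, hn⟩ := hx
  have hn40 : dp x x = 32 := by rw [hn]; norm_num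
  have hx8 : ∀ i, |x i| ≤ 8 := by
    intro i
    have h1 : x i * x i ≤ dp x x := by
      unfold dp
      exact Finset.single_le_sum (f := fun i => x i * x i) (fun j _ => mul_self_nonneg (x j)) (Finset.mem_univ i)
    rw [hn40] at h1
    rw [abs_le]
    constructor <;> nlinarith
  obtain ⟨t1, t2, _, t4⟩ := hCTE 8 x (by norm_num) hx8
  have hf : (univ.filter (fun i : Fin 8 => ¬ i.val < 8)) = ∅ := by decide
  rw [hf, Finset.sum_empty, t2, hn40] at t4
  simp only [Finset.sum_range_succ, Finset.sum_range_zero] at t1 t4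
  simp only [Nat.cast_zero, Nat.cast_one, Nat.cast_ofNat] at t1 t4
  have hpar : (∀ i, x i % 2 = 0) ∨ (∀ i, x i % 2 = 1) := by
    rcases Int.emod_two_eq_zero_or_one (x 6) with h | h
    · left; intro i; rw [hE.1 i 6]; exact h
    · right; intro i; rw [hE.1 i 6]; exact h
  have key := ME8b_key hREP hCTE hPRD hCLQ 4 x hE (Int.emod_two_eq_zero_or_one _) hx8
  rcases hpar with hp | hp
  · have z1 := ME8b_even x hp 1 (by norm_num)
    have z3 := ME8b_even x hp 3 (by norm_num)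
    have z5 := ME8b_even x hp 5 (by norm_num)
    have z7 := ME8b_even x hp 7 (by norm_num)
    rw [z1, z3, z5, z7] at t1 t4
    rcases ME8b_e4 (cN 8 x 0) (cN 8 x 2) (cN 8 x 4) (cN 8 x 6) (cN 8 x 8) (by omega) (by omega) with
      ⟨c0, c2, c4, c6, c8⟩ | ⟨c0, c2, c4, c6, c8⟩ | ⟨c0, c2, c4, c6, c8⟩
    · have hcy : ∀ v : ℤ, cN 8 x v = cN 8 ![2, 2, 2, 2, 2, 2, 2, 2] v := by
        intro v
        by_cases hv : v < 0 ∨ 8 < v
        · rw [(hCTE 8 x (by norm_num) hx8).2.2.1 v hv,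
            (hCTE 8 ![2, 2, 2, 2, 2, 2, 2, 2] (by norm_num) (by decide)).2.2.1 v hv]
        · push Not at hv
          obtain ⟨k, rfl⟩ := Int.eq_ofNat_of_zero_le hv.1
          have hk : k < 9 := by omega
          interval_cases k
          · exact c0.trans (by decide +kernel)
          · exact z1.trans (by decide +kernel)
          · exact c2.trans (by decide +kernel)
          · exact z3.trans (by decide +kernel)
          · exact c4.trans (by decide +kernel)
          · exact z5.trans (by decide +kernel)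
          · exact c6.trans (by decide +kernel)
          · exact z7.trans (by decide +kernel)
          · exact c8.trans (by decide +kernel)
      have hneg : -pN 8 ![2, 2, 2, 2, 2, 2, 2, 2] = pN 8 ![2, 2, 2, 2, 2, 2, 2, -2] := by
        decide +kernel
      rcases hPRD.2.2 8 x ![2, 2, 2, 2, 2, 2, 2, 2] hcy with hs | hs
      · apply key ![2, 2, 2, 2, 2, 2, 2, 2]
          [![2, 2, 0, 0, 0, 0, 0, 0],
            ![0, 0, 2, 2, 0, 0, 0, 0],
            ![0, 0, 0, 0, 2, 2, 0, 0],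
            ![0, 0, 0, 0, 0, 0, 2, 2]]
          ![0, 0, 8, 0, 0, 0, 0, 0, 0] (by decide +kernel) (Or.inr (Or.inr hs))
        intro v
        fin_cases v
        · exact c0
        · exact z1
        · exact c2
        · exact z3
        · exact c4
        · exact z5
        · exact c6
        · exact z7
        · exact c8
      · apply key ![2, 2, 2, 2, 2, 2, 2, -2]
          [![2, 2, 0, 0, 0, 0, 0, 0],
            ![0, 0, 2, 2, 0, 0, 0, 0],
            ![0, 0, 0, 0, 2, 2, 0, 0],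
            ![0, 0, 0, 0, 0, 0, 2, -2]]
          ![0, 0, 8, 0, 0, 0, 0, 0, 0] (by decide +kernel) (Or.inr (Or.inr (hs.trans hneg)))
        intro v
        fin_cases v
        · exact c0
        · exact z1
        · exact c2
        · exact z3
        · exact c4
        · exact z5
        · exact c6
        · exact z7
        · exact c8
    · apply key ![4, 2, 2, 2, 2, 0, 0, 0]
        [![2, 0, 0, 0, 0, 2, 0, 0],
          ![2, 0, 0, 0, 0, -2, 0, 0],
          ![0, 2, 2, 0, 0, 0, 0, 0],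
          ![0, 0, 0, 2, 2, 0, 0, 0]]
        ![3, 0, 4, 0, 1, 0, 0, 0, 0] (by decide +kernel) (Or.inl (by decide))
      intro v
      fin_cases v
      · exact c0
      · exact z1
      · exact c2
      · exact z3
      · exact c4
      · exact z5
      · exact c6
      · exact z7
      · exact c8
    · apply key ![4, 4, 0, 0, 0, 0, 0, 0]
        [![2, 0, 2, 0, 0, 0, 0, 0],
          ![2, 0, -2, 0, 0, 0, 0, 0],
          ![0, 2, 0, 2, 0, 0, 0, 0],
          ![0, 2, 0, -2, 0, 0, 0, 0]]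
        ![6, 0, 0, 0, 2, 0, 0, 0, 0] (by decide +kernel) (Or.inl (by decide))
      intro v
      fin_cases v
      · exact c0
      · exact z1
      · exact c2
      · exact z3
      · exact c4
      · exact z5
      · exact c6
      · exact z7
      · exact c8
  · have z0 := ME8b_odd x hp 0 (by norm_num)
    have z2 := ME8b_odd x hp 2 (by norm_num)
    have z4 := ME8b_odd x hp 4 (by norm_num)
    have z6 := ME8b_odd x hp 6 (by norm_num)
    have z8 := ME8b_odd x hp 8 (by norm_num)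
    rw [z0, z2, z4, z6, z8] at t1 t4
    rcases ME8b_o4 (cN 8 x 1) (cN 8 x 3) (cN 8 x 5) (cN 8 x 7) (by omega) (by omega) with
      ⟨c1, c3, c5, c7⟩ | ⟨c1, c3, c5, c7⟩
    · apply key ![3, 3, 3, 1, 1, 1, 1, -1]
        [![2, 0, 0, 2, 0, 0, 0, 0],
          ![0, 2, 0, 0, 2, 0, 0, 0],
          ![0, 0, 2, 0, 0, 2, 0, 0],
          ![1, 1, 1, -1, -1, -1, 1, -1]]
        ![0, 5, 0, 3, 0, 0, 0, 0, 0] (by decide +kernel) (Or.inr (Or.inl (by decide)))
      intro v
      fin_cases v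
      · exact z0
      · exact c1
      · exact z2
      · exact c3
      · exact z4
      · exact c5
      · exact z6
      · exact c7
      · exact z8
    · apply key ![5, 1, 1, 1, 1, 1, 1, 1]
        [![2, -2, 0, 0, 0, 0, 0, 0],
          ![1, 1, 1, 1, 1, 1, -1, -1],
          ![1, 1, 1, 1, -1, -1, 1, 1],
          ![1, 1, -1, -1, 1, 1, 1, 1]]
        ![0, 7, 0, 0, 0, 1, 0, 0, 0] (by decide +kernel) (Or.inr (Or.inl (by decide)))
      intro v
      fin_cases v
      · exact z0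
      · exact c1
      · exact z2
      · exact c3
      · exact z4
      · exact c5
      · exact z6
      · exact c7
      · exact z8

theorem ME8b_k5 (hREP : REP_stmt) (hCTE : CTE_stmt) (hPRD : PRD_stmt) (hCLQ : CLQ_stmt)
    (x : Vec 8) (hx : x ∈ XE8 5) : x ∈ VE R8 5 := by
  obtain ⟨hE, hn⟩ := hx
  have hn40 : dp x x = 40 := by rw [hn]; norm_num
  have hx8 : ∀ i, |x i| ≤ 8 := by
    intro i
    have h1 : x i * x i ≤ dp x x := by
      unfold dp
      exact Finset.single_le_sum (f := fun i => x i * x i) (fun j _ => mul_self_nonneg (x j)) (Finset.mem_univ i)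
    rw [hn40] at h1
    rw [abs_le]
    constructor <;> nlinarith
  obtain ⟨t1, t2, _, t4⟩ := hCTE 8 x (by norm_num) hx8
  have hf : (univ.filter (fun i : Fin 8 => ¬ i.val < 8)) = ∅ := by decide
  rw [hf, Finset.sum_empty, t2, hn40] at t4
  simp only [Finset.sum_range_succ, Finset.sum_range_zero] at t1 t4
  simp only [Nat.cast_zero, Nat.cast_one, Nat.cast_ofNat] at t1 t4
  have hpar : (∀ i, x i % 2 = 0) ∨ (∀ i, x i % 2 = 1) := by
    rcases Int.emod_two_eq_zero_or_one (x 6) with h | h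
    · left; intro i; rw [hE.1 i 6]; exact h
    · right; intro i; rw [hE.1 i 6]; exact h
  have key := ME8b_key hREP hCTE hPRD hCLQ 5 x hE (Int.emod_two_eq_zero_or_one _) hx8
  rcases hpar with hp | hp
  · have z1 := ME8b_even x hp 1 (by norm_num)
    have z3 := ME8b_even x hp 3 (by norm_num)
    have z5 := ME8b_even x hp 5 (by norm_num)
    have z7 := ME8b_even x hp 7 (by norm_num)
    rw [z1, z3, z5, z7] at t1 t4
    rcases ME8b_e5 (cN 8 x 0) (cN 8 x 2) (cN 8 x 4) (cN 8 x 6) (cN 8 x 8) (by omega) (by omega) with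
      ⟨c0, c2, c4, c6, c8⟩ | ⟨c0, c2, c4, c6, c8⟩ | ⟨c0, c2, c4, c6, c8⟩
    · apply key ![4, 2, 2, 2, 2, 2, 2, 0]
        [![2, 0, 0, 0, 0, 0, 0, 2],
          ![2, 0, 0, 0, 0, 0, 0, -2],
          ![0, 2, 2, 0, 0, 0, 0, 0],
          ![0, 0, 0, 2, 2, 0, 0, 0],
          ![0, 0, 0, 0, 0, 2, 2, 0]]
        ![1, 0, 6, 0, 1, 0, 0, 0, 0] (by decide +kernel) (Or.inl (by decide))
      intro v
      fin_cases v
      · exact c0
      · exact z1
      · exact c2
      · exact z3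
      · exact c4
      · exact z5
      · exact c6
      · exact z7
      · exact c8
    · apply key ![4, 4, 2, 2, 0, 0, 0, 0]
        [![2, 0, 0, 0, 2, 0, 0, 0],
          ![2, 0, 0, 0, -2, 0, 0, 0],
          ![0, 2, 0, 0, 0, 2, 0, 0],
          ![0, 2, 0, 0, 0, -2, 0, 0],
          ![0, 0, 2, 2, 0, 0, 0, 0]]
        ![4, 0, 2, 0, 2, 0, 0, 0, 0] (by decide +kernel) (Or.inl (by decide))
      intro v
      fin_cases v
      · exact c0
      · exact z1
      · exact c2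
      · exact z3
      · exact c4
      · exact z5
      · exact c6
      · exact z7
      · exact c8
    · apply key ![6, 2, 0, 0, 0, 0, 0, 0]
        [![2, -2, 0, 0, 0, 0, 0, 0],
          ![1, 1, 1, 1, 1, 1, 1, 1],
          ![1, 1, 1, 1, -1, -1, -1, -1],
          ![1, 1, -1, -1, 1, 1, -1, -1],
          ![1, 1, -1, -1, -1, -1, 1, 1]]
        ![6, 0, 1, 0, 0, 0, 1, 0, 0] (by decide +kernel) (Or.inl (by decide))
      intro v
      fin_cases v
      · exact c0
      · exact z1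
      · exact c2
      · exact z3
      · exact c4
      · exact z5
      · exact c6
      · exact z7
      · exact c8
  · have z0 := ME8b_odd x hp 0 (by norm_num)
    have z2 := ME8b_odd x hp 2 (by norm_num)
    have z4 := ME8b_odd x hp 4 (by norm_num)
    have z6 := ME8b_odd x hp 6 (by norm_num)
    have z8 := ME8b_odd x hp 8 (by norm_num)
    rw [z0, z2, z4, z6, z8] at t1 t4
    rcases ME8b_o5 (cN 8 x 1) (cN 8 x 3) (cN 8 x 5) (cN 8 x 7) (by omega) (by omega) with
      ⟨c1, c3, c5, c7⟩ | ⟨c1, c3, c5, c7⟩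
    · apply key ![3, 3, 3, 3, 1, 1, 1, 1]
        [![2, 0, 0, 0, 2, 0, 0, 0],
          ![0, 2, 0, 0, 0, 2, 0, 0],
          ![0, 0, 2, 0, 0, 0, 2, 0],
          ![0, 0, 0, 2, 0, 0, 0, 2],
          ![1, 1, 1, 1, -1, -1, -1, -1]]
        ![0, 4, 0, 4, 0, 0, 0, 0, 0] (by decide +kernel) (Or.inr (Or.inl (by decide)))
      intro v
      fin_cases v
      · exact z0
      · exact c1
      · exact z2
      · exact c3
      · exact z4
      · exact c5
      · exact z6
      · exact c7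
      · exact z8
    · apply key ![5, 3, 1, 1, 1, 1, 1, -1]
        [![2, 0, -2, 0, 0, 0, 0, 0],
          ![0, 2, 0, 2, 0, 0, 0, 0],
          ![1, 1, 1, -1, 1, 1, -1, 1],
          ![1, 1, 1, -1, -1, -1, 1, -1],
          ![1, -1, 1, 1, 1, 1, 1, -1]]
        ![0, 6, 0, 1, 0, 1, 0, 0, 0] (by decide +kernel) (Or.inr (Or.inl (by decide)))
      intro v
      fin_cases v
      · exact z0
      · exact c1
      · exact z2
      · exact c3
      · exact z4
      · exact c5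
      · exact z6
      · exact c7
      · exact z8

theorem ME8b (hREP : REP_stmt) (hCTE : CTE_stmt) (hPRD : PRD_stmt) (hCLQ : CLQ_stmt) :
    ME8b_stmt := by
  intro k hk4 hk5 x hx
  have h45 : k = 4 ∨ k = 5 := by omega
  rcases h45 with rfl | rfl
  · exact ME8b_k4 hREP hCTE hPRD hCLQ x hx
  · exact ME8b_k5 hREP hCTE hPRD hCLQ x hx

end Pool.Agent.SOL
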