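import Pool.Agent.helper1.SOL.SpecN

/-!
# Project sol, row NMB: vertex numbers of generic graphs of type B
-/

set_option autoImplicit false
set_option linter.unusedVariables false

namespace Pool.Agent.SOL

open Pool.Agent.helper54.SOG Finset

open scoped BigOperators

/-- the number of vectors of type `(t, s)` -/
def NMB_num (n t s : ℕ) : ℕ := n.choose t * (n - t).choose s * 2 ^ (t + s)

/-- the types -/
def NMB_P (n k : ℕ) : Finset (ℕ × ℕ) :=
  ((range (k + 1)) ×ˢ (range (2 * k + 1))).filter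
    (fun p => (4 * p.1 + p.2 = 2 * k ∨ 4 * p.1 + p.2 + 1 = 2 * k) ∧ 2 * p.1 + p.2 ≤ n)

theorem NMB_mem {n k : ℕ} {p : ℕ × ℕ} : p ∈ NMB_P n k ↔
    (4 * p.1 + p.2 = 2 * k ∨ 4 * p.1 + p.2 + 1 = 2 * k) ∧ 2 * p.1 + p.2 ≤ n := by
  unfold NMB_P
  rw [Finset.mem_filter, Finset.mem_product, Finset.mem_range, Finset.mem_range]
  constructor
  · intro h; exact h.2
  · intro h
    refine ⟨⟨?_, ?_⟩, h⟩ <;> omega

theorem NMB_td (hCRD : CRD_stmt) (n t s : ℕ) : (TD n t s).ncard = NMB_num n t s := by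
  obtain ⟨-, h2, h3⟩ := hCRD
  by_cases h : t + s ≤ n
  · exact h2 n t s h
  · rw [h3 n t s (by omega), Set.ncard_empty]
    unfold NMB_num
    by_cases ht : t ≤ n
    · have h4 : (n - t).choose s = 0 := Nat.choose_eq_zero_of_lt (by omega)
      rw [h4, Nat.mul_zero, Nat.zero_mul]
    · have h4 : n.choose t = 0 := Nat.choose_eq_zero_of_lt (by omega)
      rw [h4, Nat.zero_mul, Nat.zero_mul]

theorem NMB_card (hBTY : BTY_stmt) (hCRD : CRD_stmt) (n k : ℕ) :
    (VB n k).ncard = ∑ p ∈ NMB_P n k, NMB_num n p.1 p.2 := by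
  classical
  have hfin := hCRD.1
  let T : ℕ × ℕ → Finset (Vec n) := fun p => (hfin n p.1 p.2).toFinset
  have hT : ∀ p x, x ∈ T p ↔ x ∈ TD n p.1 p.2 := by
    intro p x
    exact Set.Finite.mem_toFinset _
  have h1 : VB n k = ((NMB_P n k).biUnion T : Finset (Vec n)) := by
    ext x
    rw [Finset.mem_coe, Finset.mem_biUnion]
    rw [hBTY.1 n k x]
    constructor
    · rintro ⟨h1, h2, h3⟩
      exact ⟨(cnt x 2, cnt x 1), NMB_mem.2 ⟨h2, h3⟩, (hT _ _).2 ⟨h1, rfl, rfl⟩⟩
    · rintro ⟨p, hp, hx⟩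
      obtain ⟨h1, h2, h3⟩ := (hT _ _).1 hx
      obtain ⟨h4, h5⟩ := NMB_mem.1 hp
      rw [h2, h3]
      exact ⟨h1, h4, h5⟩
  rw [h1, Set.ncard_coe_finset, Finset.card_biUnion]
  · refine Finset.sum_congr rfl fun p _ => ?_
    rw [← NMB_td hCRD, Set.ncard_eq_toFinset_card _ (hfin n p.1 p.2)]
  · intro p _ q _ hpq
    show Disjoint (T p) (T q)
    rw [Finset.disjoint_left]
    intro x hx hx'
    apply hpq
    obtain ⟨-, h2, h3⟩ := (hT _ _).1 hx
    obtain ⟨-, h4, h5⟩ := (hT _ _).1 hx'
    exact Prod.ext (h2.symm.trans h4) (h3.symm.trans h5)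

theorem NMB_lb (hBTY : BTY_stmt) (hCRD : CRD_stmt) (n k t s : ℕ)
    (h1 : 4 * t + s = 2 * k ∨ 4 * t + s + 1 = 2 * k) (h2 : 2 * t + s ≤ n) :
    NMB_num n t s ≤ (VB n k).ncard := by
  rw [NMB_card hBTY hCRD]
  have h3 : (t, s) ∈ NMB_P n k := NMB_mem.2 ⟨h1, h2⟩
  exact Finset.single_le_sum (f := fun p : ℕ × ℕ => NMB_num n p.1 p.2) (fun _ _ => Nat.zero_le _) h3

theorem NMB_lb2 (hBTY : BTY_stmt) (hCRD : CRD_stmt) (n k t s t' s' : ℕ)
    (h1 : 4 * t + s = 2 * k ∨ 4 * t + s + 1 = 2 * k) (h2 : 2 * t + s ≤ n)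
    (h1' : 4 * t' + s' = 2 * k ∨ 4 * t' + s' + 1 = 2 * k) (h2' : 2 * t' + s' ≤ n)
    (hne : s ≠ s') :
    NMB_num n t s + NMB_num n t' s' ≤ (VB n k).ncard := by
  rw [NMB_card hBTY hCRD]
  have h3 : ({(t, s), (t', s')} : Finset (ℕ × ℕ)) ⊆ NMB_P n k := by
    intro p hp
    rw [Finset.mem_insert, Finset.mem_singleton] at hp
    rcases hp with rfl | rfl
    · exact NMB_mem.2 ⟨h1, h2⟩
    · exact NMB_mem.2 ⟨h1', h2'⟩
  have h4 : ∑ p ∈ ({(t, s), (t', s')} : Finset (ℕ × ℕ)), NMB_num n p.1 p.2 =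
      NMB_num n t s + NMB_num n t' s' := by
    rw [Finset.sum_pair]
    intro h
    exact hne (congrArg Prod.snd h)
  rw [← h4]
  exact Finset.sum_le_sum_of_subset h3

theorem NMB_one (hBTY : BTY_stmt) (hCRD : CRD_stmt) (n : ℕ) : (VB n 1).ncard = 2 * n ^ 2 := by
  rw [NMB_card hBTY hCRD]
  by_cases h : 2 ≤ n
  · have h1 : NMB_P n 1 = {(0, 2), (0, 1)} := by
      ext ⟨t, s⟩
      rw [NMB_mem, Finset.mem_insert, Finset.mem_singleton, Prod.mk.injEq, Prod.mk.injEq]
      dsimp only
      omega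
    rw [h1, Finset.sum_pair (by simp)]
    unfold NMB_num
    obtain ⟨m, rfl⟩ := Nat.exists_eq_add_of_le h
    have h2 : (2 + m).choose 2 * 2 = (2 + m) * (1 + m) := by
      rw [Nat.choose_two_right, Nat.div_mul_cancel]
      · congr 1
        omega
      · exact (Nat.even_mul_pred_self (2 + m)).two_dvd
    simp only [Nat.choose_zero_right, Nat.sub_zero, Nat.zero_add, Nat.choose_one_right, one_mul]
    nlinarith
  · interval_cases n <;> decide

theorem NMB_mono (a b : ℕ) (ha : 3 ≤ a) (hb : 5 ≤ b) : 56 ≤ (a + b).choose a := by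
  have h1 : (3 + 5 : ℕ).choose 3 ≤ (3 + b).choose 3 := Nat.choose_le_choose 3 (by omega)
  have h2 : (3 + b).choose 3 = (3 + b).choose b := Nat.choose_symm_of_eq_add (by omega)
  have h3 : (3 + b).choose b ≤ (a + b).choose b := Nat.choose_le_choose b (by omega)
  have h4 : (a + b).choose b = (a + b).choose a := Nat.choose_symm_of_eq_add (by omega)
  have h5 : (3 + 5 : ℕ).choose 3 = 56 := by decide
  omega

theorem NMB (hCNT : CNT_stmt) (hBTY : BTY_stmt) (hCRD : CRD_stmt) : NMB_stmt := by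
  have one := NMB_one hBTY hCRD
  have lb := NMB_lb hBTY hCRD
  have lb2 := NMB_lb2 hBTY hCRD
  have cd := NMB_card hBTY hCRD
  refine ⟨one, ?_, ?_, ?_, ?_, ?_, ?_, ?_⟩
  · intro n k hG
    obtain ⟨h2n, h1k, hG⟩ := hG
    have key : 241 ≤ (VB n k).ncard → (VB n k).ncard ≠ 12 ∧ (VB n k).ncard ≠ 14 ∧
        (VB n k).ncard ≠ 48 ∧ (VB n k).ncard ≠ 120 ∧ (VB n k).ncard ≠ 240 := by
      intro h
      refine ⟨?_, ?_, ?_, ?_, ?_⟩ <;> omega
    rcases Nat.lt_or_ge k 6 with hk | hk
    · have hk5 : k = 1 ∨ k = 2 ∨ k = 3 ∨ k = 4 ∨ k = 5 := by omega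
      rcases hk5 with rfl | rfl | rfl | rfl | rfl
      · rw [one n]
        rcases Nat.lt_or_ge n 11 with hn | hn
        · interval_cases n <;> decide
        · have h3 : 121 ≤ n ^ 2 := by nlinarith
          refine ⟨?_, ?_, ?_, ?_, ?_⟩ <;> omega
      · have hn : 5 ≤ n := by omega
        rcases Nat.lt_or_ge n 6 with hn6 | hn6
        · have hn5 : n = 5 := by omega
          subst hn5
          rw [cd 5 2]
          decide
        · apply key
          have h3 := lb2 n 2 0 4 1 0 (by omega) (by omega) (by omega) (by omega) (by omega)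
          have h4 : (6 : ℕ).choose 4 ≤ n.choose 4 := Nat.choose_le_choose 4 hn6
          have h5 : (6 : ℕ).choose 4 = 15 := by decide
          unfold NMB_num at h3
          simp only [Nat.choose_zero_right, Nat.sub_zero, Nat.zero_add, Nat.choose_one_right,
            one_mul, Nat.add_zero, mul_one] at h3
          omega
      · have hn : 4 ≤ n := by omega
        rcases Nat.lt_or_ge n 5 with hn5 | hn5
        · have hn4 : n = 4 := by omega
          subst hn4
          rw [cd 4 3]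
          decide
        · apply key
          have h3 := lb2 n 3 1 2 1 1 (by omega) (by omega) (by omega) (by omega) (by omega)
          have h4 : (4 : ℕ).choose 2 ≤ (n - 1).choose 2 := Nat.choose_le_choose 2 (by omega)
          have h5 : (4 : ℕ).choose 2 = 6 := by decide
          unfold NMB_num at h3
          simp only [Nat.choose_one_right] at h3
          rw [h5] at h4
          have h6 : 5 * 6 ≤ n * (n - 1).choose 2 := Nat.mul_le_mul hn5 h4
          have h7 : 5 * 4 ≤ n * (n - 1) := Nat.mul_le_mul hn5 (by omega)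
          omega
      · have hn : 6 ≤ n := by omega
        apply key
        have h3 := lb n 4 1 4 (by omega) (by omega)
        have h4 : (5 : ℕ).choose 4 ≤ (n - 1).choose 4 := Nat.choose_le_choose 4 (by omega)
        have h5 : (5 : ℕ).choose 4 = 5 := by decide
        unfold NMB_num at h3
        simp only [Nat.choose_one_right] at h3
        rw [h5] at h4
        have h6 : 6 * 5 ≤ n * (n - 1).choose 4 := Nat.mul_le_mul hn h4
        omega
      · have hn : 6 ≤ n := by omega
        apply key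
        have h3 := lb n 5 2 2 (by omega) (by omega)
        have h4 : (4 : ℕ).choose 2 ≤ (n - 2).choose 2 := Nat.choose_le_choose 2 (by omega)
        have h5 : (4 : ℕ).choose 2 = 6 := by decide
        have h4' : (6 : ℕ).choose 2 ≤ n.choose 2 := Nat.choose_le_choose 2 hn
        have h5' : (6 : ℕ).choose 2 = 15 := by decide
        unfold NMB_num at h3
        rw [h5] at h4
        rw [h5'] at h4'
        have h6 : 15 * 6 ≤ n.choose 2 * (n - 2).choose 2 := Nat.mul_le_mul h4' h4
        omega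
    · apply key
      rcases Nat.even_or_odd' k with ⟨t, ht | ht⟩
      · have h3 := lb n k t 0 (by omega) (by omega)
        have h4 := NMB_mono t (n - t) (by omega) (by omega)
        have h5 : t + (n - t) = n := by omega
        rw [h5] at h4
        have h6 : 2 ^ 3 ≤ 2 ^ t := Nat.pow_le_pow_right (by norm_num) (by omega)
        unfold NMB_num at h3
        simp only [Nat.choose_zero_right, Nat.add_zero, mul_one] at h3
        have h7 : 56 * 2 ^ 3 ≤ n.choose t * 2 ^ t := Nat.mul_le_mul h4 h6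
        omega
      · have h3 := lb n k t 2 (by omega) (by omega)
        have h4 := NMB_mono t (n - t) (by omega) (by omega)
        have h5 : t + (n - t) = n := by omega
        rw [h5] at h4
        have h6 : 2 ^ 5 ≤ 2 ^ (t + 2) := Nat.pow_le_pow_right (by norm_num) (by omega)
        have h8 : (2 : ℕ).choose 2 ≤ (n - t).choose 2 := Nat.choose_le_choose 2 (by omega)
        have h9 : (2 : ℕ).choose 2 = 1 := by decide
        rw [h9] at h8
        unfold NMB_num at h3
        have h7 : 56 * 1 * 2 ^ 5 ≤ n.choose t * (n - t).choose 2 * 2 ^ (t + 2) :=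
          Nat.mul_le_mul (Nat.mul_le_mul h4 h8) h6
        omega
  · rw [cd]; decide
  · rw [cd]; decide
  · rw [cd]; decide
  · rw [cd]; decide
  · rw [cd]; decide
  · rw [cd]; decide

end Pool.Agent.SOL
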