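import Pool.Agent.helper1.SOL.SpecN

/-!
# Project sol, row VC1: the vertices of `Γ(C_n, k)`

The roots of type `C` are the integer vectors with `l1 = 2`.
-/

set_option autoImplicit false
set_option linter.unusedVariables false

namespace Pool.Agent.SOL

open Pool.Agent.helper54.SOG Finset

open scoped BigOperators

variable {n : ℕ}

theorem VC1_l1_of (u : Vec n) (i j : Fin n)
    (h : ∀ z, |u z| = (if z = i then 1 else 0) + (if z = j then 1 else 0)) : l1 u = 2 := by
  unfold l1
  rw [Finset.sum_congr rfl fun z _ => h z, Finset.sum_add_distrib, Finset.sum_ite_eq' univ i,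
    Finset.sum_ite_eq' univ j]
  simp

theorem VC1_pm {s : ℝ} (hs : s = 1 ∨ s = -1) : ∃ σ : ℤ, (σ = 1 ∨ σ = -1) ∧ (σ : ℝ) = s := by
  rcases hs with rfl | rfl
  · exact ⟨1, Or.inl rfl, by norm_num⟩
  · exact ⟨-1, Or.inr rfl, by norm_num⟩

theorem VC1_to {a : Fin n → ℝ} (ha : a ∈ rootsC n) : ∃ u : Vec n, l1 u = 2 ∧ cv u = a := by
  rcases ha with ⟨i, j, hij, s, t, hs, ht, rfl⟩ | ⟨i, s, hs, rfl⟩
  · obtain ⟨σ, hσ, rfl⟩ := VC1_pm hs
    obtain ⟨τ, hτ, rfl⟩ := VC1_pm ht
    refine ⟨fun z => (if z = i then σ else 0) + (if z = j then τ else 0), ?_, ?_⟩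
    · apply VC1_l1_of _ i j
      intro z
      by_cases h1 : z = i
      · subst h1
        rw [if_pos rfl, if_neg hij, if_pos rfl, if_neg hij]
        rcases hσ with rfl | rfl <;> norm_num
      · by_cases h2 : z = j
        · subst h2
          rw [if_neg h1, if_pos rfl, if_neg h1, if_pos rfl]
          rcases hτ with rfl | rfl <;> norm_num
        · rw [if_neg h1, if_neg h2, if_neg h1, if_neg h2]
          norm_num
    · funext z
      simp only [cv, Pi.add_apply, Pi.single_apply]
      push_cast
      rfl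
  · obtain ⟨σ, hσ, rfl⟩ := VC1_pm hs
    refine ⟨fun z => if z = i then 2 * σ else 0, ?_, ?_⟩
    · apply VC1_l1_of _ i i
      intro z
      by_cases h1 : z = i
      · rw [if_pos h1, if_pos h1]
        rcases hσ with rfl | rfl <;> norm_num
      · rw [if_neg h1, if_neg h1]
        norm_num
    · funext z
      simp only [cv, Pi.single_apply]
      push_cast
      rfl

theorem VC1_le (u : Vec n) (i : Fin n) : |u i| ≤ l1 u :=
  Finset.single_le_sum (f := fun z => |u z|) (fun z _ => abs_nonneg (u z)) (Finset.mem_univ i)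

theorem VC1_le2 (u : Vec n) {i j : Fin n} (hij : i ≠ j) : |u i| + |u j| ≤ l1 u := by
  have h1 : ∑ z ∈ ({i, j} : Finset (Fin n)), |u z| ≤ l1 u :=
    Finset.sum_le_sum_of_subset_of_nonneg (Finset.subset_univ _) fun z _ _ => abs_nonneg _
  rwa [Finset.sum_pair hij] at h1

theorem VC1_card {u : Vec n} (h : ∀ i, |u i| ≤ 1) :
    ((univ.filter fun i => u i ≠ 0).card : ℤ) = l1 u := by
  unfold l1
  rw [Finset.card_filter]
  push_cast
  refine Finset.sum_congr rfl fun i _ => ?_
  by_cases h0 : u i = 0
  · rw [h0]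
    simp
  · have h1 := abs_pos.2 h0
    have h2 := h i
    rw [if_pos h0]
    omega

theorem VC1_from {u : Vec n} (hu : l1 u = 2) : cv u ∈ rootsC n := by
  classical
  by_cases h2 : ∃ i, |u i| = 2
  · obtain ⟨i, hi⟩ := h2
    right
    refine ⟨i, (u i : ℝ) / 2, ?_, ?_⟩
    · rcases (abs_eq (by norm_num)).1 hi with h | h
      · left; rw [h]; norm_num
      · right; rw [h]; norm_num
    · funext z
      rw [Pi.single_apply]
      by_cases hz : z = i
      · rw [if_pos hz, hz]
        unfold cv
        ring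
      · rw [if_neg hz]
        have h3 := VC1_le2 u (Ne.symm hz)
        have h4 := abs_nonneg (u z)
        have h5 : |u z| = 0 := by omega
        unfold cv
        rw [abs_eq_zero.1 h5]
        norm_num
  · push Not at h2
    have h1 : ∀ i, |u i| ≤ 1 := by
      intro i
      have h3 := VC1_le u i
      have h4 := h2 i
      omega
    left
    rw [mem_rootsD_iff]
    refine ⟨?_, ?_⟩
    · intro z
      have h3 := h1 z
      rw [abs_le] at h3
      have h4 : u z = 0 ∨ u z = 1 ∨ u z = -1 := by omega
      unfold cv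
      rcases h4 with h | h | h <;> rw [h]
      · left; norm_num
      · right; left; norm_num
      · right; right; norm_num
    · have h3 := VC1_card h1
      rw [hu] at h3
      have h4 : sp (cv u) = univ.filter fun i => u i ≠ 0 := by
        ext z
        rw [mem_sp, Finset.mem_filter]
        unfold cv
        simp
      rw [h4]
      exact_mod_cast h3

theorem VC1_disj {u v : Vec n} (hu : l1 u = 2) (hv : l1 v = 2) (h : ∀ i, u i = 0 ∨ v i = 0) :
    l1 (u + v) = 4 ∧ l1 (u - v) = 4 := by
  have h1 : l1 (u + v) = l1 u + l1 v := by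
    unfold l1
    rw [← Finset.sum_add_distrib]
    refine Finset.sum_congr rfl fun i _ => ?_
    rw [Pi.add_apply]
    rcases h i with h0 | h0 <;> rw [h0] <;> simp
  have h2 : l1 (u - v) = l1 u + l1 v := by
    unfold l1
    rw [← Finset.sum_add_distrib]
    refine Finset.sum_congr rfl fun i _ => ?_
    rw [Pi.sub_apply]
    rcases h i with h0 | h0 <;> rw [h0] <;> simp
  rw [h1, h2, hu, hv]
  norm_num

theorem VC1_even {u v : Vec n} (hu : l1 u = 2) (hv : l1 v = 2) : 2 ∣ l1 (u + v) := by
  have h1 : (2 : ℤ) ∣ l1 (u + v) - (l1 u + l1 v) := by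
    unfold l1
    rw [← Finset.sum_add_distrib, ← Finset.sum_sub_distrib]
    refine Finset.dvd_sum fun i _ => ?_
    rw [Pi.add_apply]
    rcases abs_cases (u i + v i) with h | h <;> rcases abs_cases (u i) with h' | h' <;>
      rcases abs_cases (v i) with h'' | h'' <;> omega
  rw [hu, hv] at h1
  omega

theorem VC1_pos {u : Vec n} (hu : u ≠ 0) : 0 < l1 u := by
  obtain ⟨i, hi⟩ : ∃ i, u i ≠ 0 := by
    by_contra hcon
    push Not at hcon
    exact hu (funext hcon)
  have h1 := VC1_le u i
  have h2 := abs_pos.2 hi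
  omega

theorem VC1_so {u v : Vec n} (hu : l1 u = 2) (hv : l1 v = 2) (hne : u ≠ v) (h0 : u + v ≠ 0)
    (h1 : l1 (u + v) ≠ 2) (h2 : l1 (u - v) ≠ 2) (i : Fin n) : u i = 0 ∨ v i = 0 := by
  by_contra hcon
  rw [not_or] at hcon
  obtain ⟨hui, hvi⟩ := hcon
  have e1 := VC1_even hu hv
  have hv' : l1 (-v) = 2 := by rw [l1_neg]; exact hv
  have e2 := VC1_even hu hv'
  rw [← sub_eq_add_neg] at e2
  have p1 := VC1_pos h0
  have p2 := VC1_pos (sub_ne_zero.2 hne)
  have key : l1 (u + v) + l1 (u - v) < 2 * l1 u + 2 * l1 v := by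
    unfold l1
    rw [← Finset.sum_add_distrib, Finset.mul_sum, Finset.mul_sum, ← Finset.sum_add_distrib]
    refine Finset.sum_lt_sum (fun z _ => ?_) ⟨i, Finset.mem_univ i, ?_⟩
    · rw [Pi.add_apply, Pi.sub_apply]
      rcases abs_cases (u z + v z) with h | h <;> rcases abs_cases (u z - v z) with h' | h' <;>
        rcases abs_cases (u z) with h'' | h'' <;> rcases abs_cases (v z) with h3 | h3 <;> omega
    · rw [Pi.add_apply, Pi.sub_apply]
      rcases abs_cases (u i + v i) with h | h <;> rcases abs_cases (u i - v i) with h' | h' <;>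
        rcases abs_cases (u i) with h'' | h'' <;> rcases abs_cases (v i) with h3 | h3 <;> omega
  omega

theorem VC1_cv_add (x y : Vec n) : cv (x + y) = cv x + cv y := by
  funext i
  simp [cv]

theorem VC1_step {x : Vec n} {k : ℕ} (h2 : ∀ i, |x i| ≤ 2) (hx : l1 x = 2 * ((k + 1 : ℕ) : ℤ)) :
    ∃ u : Vec n, l1 u = 2 ∧ ∀ i, u i = 0 ∨ u i = x i := by
  by_cases hA : ∃ i, |x i| = 2
  · obtain ⟨i, hi⟩ := hA
    refine ⟨fun z => if z = i then x i else 0, ?_, ?_⟩
    · apply VC1_l1_of _ i i
      intro z
      by_cases h1 : z = i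
      · rw [if_pos h1, if_pos h1, hi]
        norm_num
      · rw [if_neg h1, if_neg h1]
        norm_num
    · intro z
      by_cases h1 : z = i
      · right
        rw [h1]
        exact if_pos rfl
      · left
        exact if_neg h1
  · push Not at hA
    have h1 : ∀ i, |x i| ≤ 1 := by
      intro i
      have h3 := h2 i
      have h4 := hA i
      omega
    have h3 := VC1_card h1
    have h4 : 1 < (univ.filter fun i => x i ≠ 0).card := by
      rw [hx] at h3
      push_cast at h3
      omega
    obtain ⟨i, hi, j, hj, hij⟩ := Finset.one_lt_card.1 h4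
    have hi1 : |x i| = 1 := by
      have h5 := abs_pos.2 (Finset.mem_filter.1 hi).2
      have h6 := h1 i
      omega
    have hj1 : |x j| = 1 := by
      have h5 := abs_pos.2 (Finset.mem_filter.1 hj).2
      have h6 := h1 j
      omega
    refine ⟨fun z => if z = i ∨ z = j then x z else 0, ?_, ?_⟩
    · apply VC1_l1_of _ i j
      intro z
      by_cases h5 : z = i
      · subst h5
        rw [if_pos (Or.inl rfl), if_pos rfl, if_neg hij, hi1]
        norm_num
      · by_cases h6 : z = j
        · subst h6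
          rw [if_pos (Or.inr rfl), if_neg h5, if_pos rfl, hj1]
          norm_num
        · rw [if_neg (by rw [not_or]; exact ⟨h5, h6⟩), if_neg h5, if_neg h6]
          norm_num
    · intro z
      by_cases h5 : z = i ∨ z = j
      · right
        exact if_pos h5
      · left
        exact if_neg h5

theorem VC1_back : ∀ (k : ℕ) (x : Vec n), (∀ i, |x i| ≤ 2) → l1 x = 2 * (k : ℤ) →
    ∃ T : Finset (Vec n), T.card = k ∧ (∀ u ∈ T, l1 u = 2 ∧ ∀ i, x i = 0 → u i = 0) ∧
      (∀ u ∈ T, ∀ v ∈ T, u ≠ v → ∀ i, u i = 0 ∨ v i = 0) ∧ ∑ u ∈ T, u = x := by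
  classical
  intro k
  induction k with
  | zero =>
    intro x h2 hx
    have hx0 : x = 0 := by
      by_contra h
      have h1 := VC1_pos h
      rw [hx] at h1
      simp at h1
    refine ⟨∅, Finset.card_empty, ?_, ?_, ?_⟩
    · intro u hu
      exact absurd hu (Finset.notMem_empty u)
    · intro u hu
      exact absurd hu (Finset.notMem_empty u)
    · rw [Finset.sum_empty, hx0]
  | succ k ih =>
    intro x h2 hx
    obtain ⟨u, hu, hux⟩ := VC1_step h2 hx
    have hsub : ∀ i, (x - u) i = 0 ∨ (x - u) i = x i ∧ u i = 0 := by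
      intro i
      rw [Pi.sub_apply]
      rcases hux i with h | h
      · right
        rw [h, sub_zero]
        exact ⟨rfl, rfl⟩
      · left
        rw [h, sub_self]
    have hl : l1 (x - u) = 2 * (k : ℤ) := by
      have h3 : l1 (x - u) = l1 x - l1 u := by
        unfold l1
        rw [← Finset.sum_sub_distrib]
        refine Finset.sum_congr rfl fun i _ => ?_
        rw [Pi.sub_apply]
        rcases hux i with h | h <;> rw [h] <;> simp
      rw [h3, hx, hu]
      push_cast
      ring
    obtain ⟨T, hT1, hT2, hT3, hT4⟩ := ih (x - u) (by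
      intro i
      rcases hsub i with h | ⟨h, -⟩
      · rw [h]; norm_num
      · rw [h]; exact h2 i) hl
    have hTu : ∀ v ∈ T, ∀ i, u i = 0 ∨ v i = 0 := by
      intro v hv i
      rcases hsub i with h | ⟨-, h⟩
      · exact Or.inr ((hT2 v hv).2 i h)
      · exact Or.inl h
    have huT : u ∉ T := by
      intro h
      have h3 : u = 0 := by
        funext i
        rcases hTu u h i with h | h <;> exact h
      rw [h3] at hu
      simp [l1] at hu
    refine ⟨insert u T, ?_, ?_, ?_, ?_⟩
    · rw [Finset.card_insert_of_notMem huT, hT1]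
    · intro v hv
      rw [Finset.mem_insert] at hv
      rcases hv with rfl | hv
      · refine ⟨hu, fun i hi => ?_⟩
        rcases hux i with h | h
        · exact h
        · rw [h, hi]
      · refine ⟨(hT2 v hv).1, fun i hi => (hT2 v hv).2 i ?_⟩
        rcases hsub i with h | ⟨h, -⟩
        · exact h
        · rw [h, hi]
    · intro v hv w hw hvw i
      rw [Finset.mem_insert] at hv hw
      rcases hv with rfl | hv
      · rcases hw with rfl | hw
        · exact absurd rfl hvw
        · exact hTu w hw i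
      · rcases hw with rfl | hw
        · exact (hTu v hv i).symm
        · exact hT3 v hv w hw hvw i
    · rw [Finset.sum_insert huT, hT4]
      abel

theorem VC1_cv_sum (T : Finset (Vec n)) : ∑ u ∈ T, cv u = cv (∑ u ∈ T, u) := by
  classical
  induction T using Finset.induction_on with
  | empty =>
    rw [Finset.sum_empty, Finset.sum_empty]
    funext i
    simp [cv]
  | insert a s ha ih => rw [Finset.sum_insert ha, Finset.sum_insert ha, ih, VC1_cv_add]

theorem VC1_abs_sum (S : Finset (Fin n → ℝ)) (f : (Fin n → ℝ) → ℤ)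
    (h : ∀ a ∈ S, ∀ b ∈ S, a ≠ b → f a = 0 ∨ f b = 0) :
    |∑ a ∈ S, f a| = ∑ a ∈ S, |f a| ∧ ((∀ a ∈ S, |f a| ≤ 2) → |∑ a ∈ S, f a| ≤ 2) := by
  classical
  by_cases h0 : ∃ a ∈ S, f a ≠ 0
  · obtain ⟨a, ha, ha0⟩ := h0
    have h1 : ∀ b ∈ S, b ≠ a → f b = 0 := fun b hb hba => (h a ha b hb hba.symm).resolve_left ha0
    have h2 : ∑ b ∈ S, f b = f a := by
      apply Finset.sum_eq_single a
      · exact h1
      · intro h3
        exact absurd ha h3
    have h3 : ∑ b ∈ S, |f b| = |f a| := by
      apply Finset.sum_eq_single a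
      · intro b hb hba
        rw [h1 b hb hba, abs_zero]
      · intro h3
        exact absurd ha h3
    rw [h2, h3]
    exact ⟨rfl, fun h4 => h4 a ha⟩
  · push Not at h0
    rw [Finset.sum_eq_zero h0, Finset.sum_eq_zero fun a ha => by rw [h0 a ha, abs_zero]]
    exact ⟨abs_zero, fun _ => by rw [abs_zero]; norm_num⟩

theorem VC1 : VC1_stmt := by
  classical
  intro n k
  ext v
  constructor
  · rintro ⟨S, hc, hS, rfl⟩
    have hex : ∀ a : Fin n → ℝ, ∃ u : Vec n, a ∈ S → l1 u = 2 ∧ cv u = a := by
      intro a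
      by_cases ha : a ∈ S
      · obtain ⟨u, hu⟩ := VC1_to (hS.1 a ha)
        exact ⟨u, fun _ => hu⟩
      · exact ⟨0, fun h => absurd h ha⟩
    choose U hU using hex
    have hd : ∀ a ∈ S, ∀ b ∈ S, a ≠ b → ∀ i, U a i = 0 ∨ U b i = 0 := by
      intro a ha b hb hab i
      obtain ⟨ha1, ha2⟩ := hU a ha
      obtain ⟨hb1, hb2⟩ := hU b hb
      obtain ⟨h1, h2, h3⟩ := hS.2 a ha b hb hab
      refine VC1_so ha1 hb1 ?_ ?_ ?_ ?_ i
      · intro h
        apply hab
        rw [← ha2, ← hb2, h]
      · intro h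
        apply h1
        rw [← ha2, ← hb2, ← VC1_cv_add, h]
        funext z
        simp [cv]
      · intro h
        apply h2
        rw [← ha2, ← hb2, ← VC1_cv_add]
        exact VC1_from h
      · intro h
        apply h3
        rw [← ha2, ← hb2, ← cv_sub]
        exact VC1_from h
    refine ⟨∑ a ∈ S, U a, ⟨?_, ?_⟩, ?_⟩
    · intro i
      rw [Finset.sum_apply]
      refine (VC1_abs_sum S (fun a => U a i) fun a ha b hb hab => hd a ha b hb hab i).2 ?_
      intro a ha
      rw [← (hU a ha).1]
      exact VC1_le _ _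
    · unfold l1
      have h1 : ∀ i, |(∑ a ∈ S, U a) i| = ∑ a ∈ S, |U a i| := by
        intro i
        rw [Finset.sum_apply]
        exact (VC1_abs_sum S (fun a => U a i) fun a ha b hb hab => hd a ha b hb hab i).1
      rw [Finset.sum_congr rfl fun i _ => h1 i, Finset.sum_comm]
      have h2 : ∀ a ∈ S, ∑ i, |U a i| = 2 := fun a ha => (hU a ha).1
      rw [Finset.sum_congr rfl h2, Finset.sum_const, hc]
      simp [mul_comm]
    · funext i
      show (((∑ a ∈ S, U a) i : ℤ) : ℝ) = (∑ a ∈ S, a) i
      rw [Finset.sum_apply, Finset.sum_apply]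
      push_cast
      exact Finset.sum_congr rfl fun a ha => congrFun (hU a ha).2 i
  · rintro ⟨x, ⟨hx1, hx2⟩, rfl⟩
    obtain ⟨T, h1, h2, h3, h4⟩ := VC1_back k x hx1 hx2
    have hinj : Function.Injective (cv : Vec n → Fin n → ℝ) := fun a b h => cv_inj h
    refine ⟨T.image cv, ?_, ⟨?_, ?_⟩, ?_⟩
    · rw [Finset.card_image_of_injective T hinj, h1]
    · intro a ha
      obtain ⟨u, hu, rfl⟩ := Finset.mem_image.1 ha
      exact VC1_from (h2 u hu).1
    · intro a ha b hb hab
      obtain ⟨u, hu, rfl⟩ := Finset.mem_image.1 ha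
      obtain ⟨w, hw, rfl⟩ := Finset.mem_image.1 hb
      have huw : u ≠ w := fun h => hab (by rw [h])
      obtain ⟨h5, h6⟩ := VC1_disj (h2 u hu).1 (h2 w hw).1 (h3 u hu w hw huw)
      rw [← VC1_cv_add, ← cv_sub]
      refine ⟨?_, ?_, ?_⟩
      · intro h
        have h7 : u + w = 0 := by
          apply cv_inj
          rw [h]
          funext z
          simp [cv]
        rw [h7] at h5
        simp [l1] at h5
      · intro h
        obtain ⟨y, hy, hy'⟩ := VC1_to h
        rw [cv_inj hy'] at hy
        omega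
      · intro h
        obtain ⟨y, hy, hy'⟩ := VC1_to h
        rw [cv_inj hy'] at hy
        omega
    · rw [Finset.sum_image fun a _ b _ h => cv_inj h, VC1_cv_sum, h4]

end Pool.Agent.SOL
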